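import Pool.Agent.X333.SV.Lin
import Pool.Agent.X333.NM.Alg

/-!
Special loci of the irreducible components of varieties given by nested sums of high powers.
-/

set_option autoImplicit false

open FF MvPolynomial Pool.Agent.TH710.ND Pool.Agent.W603.LV Pool.Agent.W603.PV Pool.Agent.W603.GW
  Pool.Agent.W603.GX Pool.Agent.W602.GT Pool.Agent.X333.NM Pool.Agent.X333.SV
open Pool.Agent.X333.MC (vForms)

namespace Pool.Agent.X333.SL

variable {k : Type} [Field k] {n : ℕ} {ι : Type} {K : Type} [Field K] [Algebra k K]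

/-- The Zariski closure in the projective variety `X = {F = 0}` of the union of the images of all
varieties of positive dimension `w` which are not of general type under generically finite rational
maps to `X`; such a variety is given by its function field `K`, and the map by the image `y` of the
generic point. -/
def SpMaps (F : ι → MvPolynomial (Fin (n + 1)) k) : Set (Fin (n + 1) → k) :=
  {x | x ∈ Cone F ∧ ∀ G : MvPolynomial (Fin (n + 1)) k, IsForm G →
    (∀ (K : Type) [Field K] [Algebra k K] (w : ℕ) (y : Fin (n + 1) → K), 1 ≤ w → y ≠ 0 →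
      (∀ i, val y (F i) = 0) → Algebra.IsAlgebraic (coords k y) K → Algebra.trdeg k K = w →
      ¬ GeneralType k K w → val y G = 0) → val x G = 0}

theorem cone_vForms {y : Fin (n + 1) → K} {x : Fin (n + 1) → k} :
    x ∈ Cone (vForms k y) ↔ x ∈ VarPts k y := by
  constructor
  · rintro ⟨h1, h2⟩
    exact ⟨h1, fun G hG h0 => h2 ⟨G, hG, h0⟩⟩
  · rintro ⟨h1, h2⟩
    exact ⟨h1, fun G => h2 G.1 G.2.1 G.2.2⟩

theorem alg_sub_maps (F : ι → MvPolynomial (Fin (n + 1)) k) : SpAlg F ⊆ SpMaps F := by
  rintro x ⟨hx, h⟩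
  refine ⟨hx, fun G hG hM => h G hG ?_⟩
  intro K _ _ w y hw hy hgt
  have hgen : Algebra.IsAlgebraic (coords k y) K := by
    rw [hy.gen]
    infer_instance
  exact hM K w y hw hy.ne hy.mem hgen hy.dim hgt

theorem diag_sub_gm [CharZero k] [IsAlgClosed k] {F : ι → MvPolynomial (Fin (n + 1)) k}
    (hF : ∀ e, IsForm (F e)) : SpDiag ∅ F ⊆ SpGm F := by
  rintro x ⟨hx, h⟩
  refine ⟨⟨hx.1, hx.2.2⟩, fun G hG hg => h G hG ?_⟩
  intro x' b hd
  obtain ⟨P, hP, hP1⟩ := gm_of_diag hF hd
  have h3 := hg P hP 1 one_ne_zero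
  rwa [hP1] at h3

/-- a point of `V` where `G` does not vanish -/
theorem ne_of_form [IsAlgClosed k] {y : Fin (n + 1) → K} (hy : y ≠ 0)
    {G : MvPolynomial (Fin (n + 1)) k} (hG : val y G ≠ 0) {S : Set (Fin (n + 1) → k)}
    (hS : ∀ x ∈ S, val x G = 0) : S ≠ Cone (vForms k y) := by
  obtain ⟨i, hi'⟩ := Function.ne_iff.1 hy
  have hi : y i ≠ 0 := hi'
  obtain ⟨x, hx1, hx2⟩ := specialise y (G * MvPolynomial.X i) (by
    rw [map_mul, MvPolynomial.aeval_X]
    exact mul_ne_zero hG hi)
  rw [map_mul, MvPolynomial.aeval_X] at hx1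
  rintro rfl
  refine left_ne_zero_of_mul hx1 (hS x (cone_vForms.2 ⟨fun h0 => right_ne_zero_of_mul hx1
    (congrFun h0 i), fun H _ hH => hx2 H hH⟩))

theorem form_v (y : Fin (n + 1) → K) : ∀ e, IsForm (vForms k y e) := fun e => e.2.1

/-- the component in the notation for quasi-projective varieties -/
theorem sub_q {F : ι → MvPolynomial (Fin (n + 1)) k} {w : ℕ} {y : Fin (n + 1) → K}
    (hy : SubVar F K w y) :
    SubVarQ F (Empty.elim : Empty → MvPolynomial (Fin (n + 1)) k) K w y :=
  ⟨hy.ne, hy.mem, fun j => j.elim, hy.gen, hy.dim⟩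

theorem comp_q {F : ι → MvPolynomial (Fin (n + 1)) k} {y : Fin (n + 1) → K}
    (h : IsComponent F y) :
    IsComponentQ F (Empty.elim : Empty → MvPolynomial (Fin (n + 1)) k) y := by
  obtain ⟨H, hH, hHy, hcone⟩ := h
  exact ⟨H, hH, hHy, fun x hx hxH => hcone x ⟨hx.1, hx.2.1⟩ hxH⟩

theorem sub_u {F : ι → MvPolynomial (Fin (n + 1)) k} {w : ℕ} {y : Fin (n + 1) → K}
    (hy : SubVar F K w y) : SubVarU ∅ F K w y :=
  ⟨hy.ne, fun j hj => absurd hj (Set.notMem_empty j), hy.mem, hy.gen, hy.dim⟩

theorem comp_u {F : ι → MvPolynomial (Fin (n + 1)) k} {y : Fin (n + 1) → K}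
    (h : IsComponent F y) : IsComponentU ∅ F y := by
  obtain ⟨H, hH, hHy, hcone⟩ := h
  exact ⟨H, hH, hHy, fun x hx hxH => hcone x (mem_cone_empty hx) hxH⟩

theorem gt_of_q {y : Fin (n + 1) → K} {w : ℕ} (h : LogGeneralType k K w
    (OffAny (Empty.elim : Empty → MvPolynomial (Fin (n + 1)) k) y)) : GeneralType k K w := by
  by_contra hgt
  refine not_log hgt ?_
  have e : (fun _ : Place k K => False) =
      OffAny (Empty.elim : Empty → MvPolynomial (Fin (n + 1)) k) y := by
    funext P
    exact propext ⟨False.elim, fun ⟨j, _⟩ => j.elim⟩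
  rwa [e]

/-- linear forms: the images of varieties not of general type -/
theorem maps_lin [IsAlgClosed k] [CharZero k] {F : ι → MvPolynomial (Fin (n + 1)) k}
    {s N h : ℕ} (hF : ∀ i, IsNested s N h (F i))
    (hN : (n + 1) * ((h + 1) * (2 * s + 1) ^ 5) ≤ N) {w : ℕ} (hw : 1 ≤ w)
    {y : Fin (n + 1) → K} (hy : SubVar F K w y) (hcomp : IsComponent F y)
    (hgt : GeneralType k K w) : SpMaps (vForms k y) ≠ Cone (vForms k y) := by
  have h1 := sub_tfae_q (Q := (Empty.elim : Empty → MvPolynomial (Fin (n + 1)) k)) hF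
    (fun j => j.elim) hN hw (sub_q hy) (comp_q hcomp)
  have h2 : LogGeneralType k K w
      (OffAny (Empty.elim : Empty → MvPolynomial (Fin (n + 1)) k) y) :=
    Pool.Agent.TH710.NR.log_of_general hgt _
  obtain ⟨G, hG, hGy, hGZ⟩ := (h1.out 0 2).1 h2
  refine ne_of_form hy.ne hGy fun x hx => hx.2 G hG ?_
  intro Z _ _ w' z hw' hz0 hzm halg hdim hngt
  by_contra hne
  exact hngt (gt_of_q (hGZ Z w' z hw' ⟨hz0, hzm, fun j => j.elim, halg, hdim⟩ hne))

/-- monomials: the images of varieties not of general type -/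
theorem maps_mono [IsAlgClosed k] [CharZero k] [Finite ι]
    {F : ι → MvPolynomial (Fin (n + 1)) k} {s N h : ℕ}
    (hF : ∀ e, IsForm (F e) ∧ NestedIn IsMono s N h (F e))
    (hN : (n + 1) * ((h + 1) * (2 * s + 1) ^ 5) ≤ N) {w : ℕ} (hw : 1 ≤ w)
    {y : Fin (n + 1) → K} (hy : SubVar F K w y) (hcomp : IsComponent F y)
    (hgt : GeneralType k K w) : SpMaps (vForms k y) ≠ Cone (vForms k y) := by
  have h1 := SV.sub_tfae hF hN hw (sub_u hy) (comp_u hcomp)
  obtain ⟨G, hG, hGy, hGZ⟩ := (h1.out 1 4).1 hgt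
  refine ne_of_form hy.ne hGy fun x hx => hx.2 G hG ?_
  intro Z _ _ w' z hw' hz0 hzm halg hdim hngt
  by_contra hne
  exact hngt (hGZ Z w' z hw' ⟨hz0, fun j hj => absurd hj (Set.notMem_empty j), hzm, halg, hdim⟩
    hne)

/-- monomials: if `V` is not of general type, it is covered by orbits -/
theorem diag_comp [IsAlgClosed k] [CharZero k] [Finite ι]
    {F : ι → MvPolynomial (Fin (n + 1)) k} {s N h : ℕ}
    (hF : ∀ e, IsForm (F e) ∧ NestedIn IsMono s N h (F e))
    (hN : (n + 1) * ((h + 1) * (2 * s + 1) ^ 5) ≤ N) {w : ℕ} (hw : 1 ≤ w)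
    {y : Fin (n + 1) → K} (hy : SubVar F K w y) (hcomp : IsComponent F y)
    (hgt : ¬ GeneralType k K w) : SpDiag ∅ (vForms k y) = Cone (vForms k y) := by
  have h1 := SV.sub_tfae hF hN hw (sub_u hy) (comp_u hcomp)
  refine Set.Subset.antisymm (fun x hx => ⟨hx.1.1, hx.1.2.2⟩) fun x hx =>
    ⟨(⟨hx.1, fun j hj => absurd hj (Set.notMem_empty j), hx.2⟩ : x ∈ ConeU ∅ (vForms k y)),
      fun G hG hD => ?_⟩
  have h2 : GeneralType k K w ↔ OrbitsSmall k ∅ y := h1.out 1 5
  by_contra hne
  refine hgt (h2.2 ⟨G, hG, fun h0 => hne ?_, fun x' b hd => hD x' b hd⟩)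
  exact (cone_vForms.1 hx).2 G hG h0

/-- the values of a form on a line, as a polynomial -/
theorem line_poly (a b : Fin (n + 1) → K) (H : MvPolynomial (Fin (n + 1)) k) :
    ∃ p : Polynomial K, ∀ t, p.eval t = val (fun i => a i + t * b i) H := by
  refine ⟨MvPolynomial.aeval (fun i => Polynomial.C (a i) + Polynomial.X * Polynomial.C (b i)) H,
    fun t => ?_⟩
  have h1 : ∀ q : Polynomial K, q.eval t = ((Polynomial.aeval t).restrictScalars k) q := by
    intro q
    rw [AlgHom.restrictScalars_apply, Polynomial.coe_aeval_eq_eval]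
  rw [h1, MvPolynomial.comp_aeval_apply]
  unfold Pool.Agent.W602.GT.val
  congr 1
  congr 1
  funext i
  change Polynomial.aeval t (Polynomial.C (a i) + Polynomial.X * Polynomial.C (b i)) = _
  rw [map_add, map_mul, Polynomial.aeval_C, Polynomial.aeval_C, Polynomial.aeval_X]
  rfl

theorem val_zero_vec [Infinite k] {I : MvPolynomial (Fin (n + 1)) k} (hI : IsForm I) (a : Fin (n + 1) → K)
    (c : K) (h : val a I = 0) : val (fun i => c * a i) I = 0 := by
  obtain ⟨d, hd⟩ := hI
  have h1 := Pool.Agent.W602.GT.val_smul hd c a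
  rw [h1, h, mul_zero]

/-- **The line through the generic point of a component is contained in the component.** -/
theorem line_comp [IsAlgClosed k] [CharZero k] {F : ι → MvPolynomial (Fin (n + 1)) k}
    {y v : Fin (n + 1) → K} (hcomp : IsComponent F y)
    (hyv : ∃ i j, y i * v j - y j * v i ≠ 0)
    (hl : ∀ (c c' : K) (e : ι), val (fun l => c * y l + c' * v l) (F e) = 0)
    {I : MvPolynomial (Fin (n + 1)) k} (hI : IsForm I) (hIy : val y I = 0) (c c' : K) :
    val (fun l => c * y l + c' * v l) I = 0 := by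
  classical
  obtain ⟨H, hH, hHy, hcone⟩ := hcomp
  have hinfk : Infinite k := inferInstance
  have hinf : Infinite K := Infinite.of_injective _ (algebraMap k K).injective
  have hne : ∀ c c' : K, ¬ (c = 0 ∧ c' = 0) → (fun l => c * y l + c' * v l) ≠ 0 := by
    intro c c' hcc h0
    obtain ⟨i, j, hij⟩ := hyv
    have hi := congrFun h0 i
    have hj := congrFun h0 j
    simp only [Pi.zero_apply] at hi hj
    have h1 : c * (y i * v j - y j * v i) = 0 := by linear_combination v j * hi - v i * hj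
    have h2 : c' * (y i * v j - y j * v i) = 0 := by linear_combination y i * hj - y j * hi
    exact hcc ⟨(mul_eq_zero.1 h1).resolve_right hij, (mul_eq_zero.1 h2).resolve_right hij⟩
  have hprod : ∀ c c' : K, ¬ (c = 0 ∧ c' = 0) →
      val (fun l => c * y l + c' * v l) H * val (fun l => c * y l + c' * v l) I = 0 := by
    intro c c' hcc
    rw [← val_mul]
    refine val_of_cone (U := ∅) (hne c c' hcc) (fun j hj => absurd hj (Set.notMem_empty j))
      (hl c c') fun x hx => ?_
    rw [val_mul]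
    by_cases h0 : val x H = 0
    · rw [h0, zero_mul]
    · rw [(hcone x (mem_cone_empty hx) h0).2 I hI hIy, mul_zero]
  have key : ∀ a b : Fin (n + 1) → K, (∃ S : Set K, S.Finite ∧ ∀ t, t ∉ S →
      val (fun i => a i + t * b i) H * val (fun i => a i + t * b i) I = 0) →
      (∃ t, val (fun i => a i + t * b i) H ≠ 0) → ∀ t, val (fun i => a i + t * b i) I = 0 := by
    intro a b ⟨S, hS, h⟩ ⟨t0, ht0⟩ t
    obtain ⟨p, hp⟩ := line_poly (k := k) a b H
    obtain ⟨q, hq⟩ := line_poly (k := k) a b I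
    have hpq : p * q = 0 := by
      refine Polynomial.eq_zero_of_infinite_isRoot _ (Set.Infinite.mono ?_ hS.infinite_compl)
      intro t ht
      change (p * q).eval t = 0
      rw [Polynomial.eval_mul, hp, hq, h t ht]
    rcases mul_eq_zero.1 hpq with h0 | h0
    · exact absurd (by rw [← hp, h0, Polynomial.eval_zero]) ht0
    · rw [← hq, h0, Polynomial.eval_zero]
  have h1 : ∀ t, val (fun i => y i + t * v i) I = 0 := by
    refine key y v ⟨∅, Set.finite_empty, fun t _ => ?_⟩ ⟨0, by simpa using hHy⟩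
    have := hprod 1 t (fun h => one_ne_zero h.1)
    simpa using this
  have h2 : ∀ t, val (fun i => v i + t * y i) I = 0 := by
    intro t
    obtain ⟨q, hq⟩ := line_poly (k := k) v y I
    have hq0 : q = 0 := by
      refine Polynomial.eq_zero_of_infinite_isRoot _
        (Set.Infinite.mono ?_ (Set.finite_singleton (0 : K)).infinite_compl)
      intro t ht
      change q.eval t = 0
      have ht' : t ≠ 0 := ht
      rw [hq]
      have h3 := val_zero_vec hI (fun i => y i + t⁻¹ * v i) t (h1 t⁻¹)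
      have e : (fun i => t * (y i + t⁻¹ * v i)) = fun i => v i + t * y i := by
        funext i
        field_simp
        ring
      rwa [e] at h3
    rw [← hq, hq0, Polynomial.eval_zero]
  by_cases hc : c = 0
  · have h3 := val_zero_vec hI (fun i => v i + 0 * y i) c' (h2 0)
    have e : (fun i => c' * (v i + 0 * y i)) = fun l => c * y l + c' * v l := by
      funext i
      rw [hc]
      ring
    rwa [e] at h3
  · have h3 := val_zero_vec hI (fun i => y i + (c' / c) * v i) c (h1 _)
    have e : (fun i => c * (y i + (c' / c) * v i)) = fun l => c * y l + c' * v l := by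
      funext i
      field_simp
    rwa [e] at h3

/-- linear forms: if `V` is not of general type, it is covered by lines -/
theorem lines_comp [IsAlgClosed k] [CharZero k] {F : ι → MvPolynomial (Fin (n + 1)) k}
    {s N h : ℕ} (hF : ∀ i, IsNested s N h (F i))
    (hN : (n + 1) * ((h + 1) * (2 * s + 1) ^ 5) ≤ N) {w : ℕ}
    {y : Fin (n + 1) → K} (hy : SubVar F K w y) (hcomp : IsComponent F y)
    (hgt : ¬ GeneralType k K w) : SpLine (vForms k y) = Cone (vForms k y) := by
  obtain ⟨hNb, -, -⟩ := bnd_le hN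
  have halg : Algebra.IsAlgebraic (coords k y) K := by
    rw [hy.gen]
    infer_instance
  obtain ⟨v, hv, hl⟩ := waring_n hF hNb hy.ne halg hy.dim hy.mem (not_log hgt)
  refine Set.Subset.antisymm (fun x hx => hx.1) fun x hx => ⟨hx, fun G hG hL => ?_⟩
  refine (cone_vForms.1 hx).2 G hG ?_
  exact mem_closure (F := vForms k y) y v hv
    (fun c c' I => line_comp hcomp hv hl I.2.1 I.2.2 c c') hL

end Pool.Agent.X333.SL
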